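import Pool.Agent.helper12.OB.SpecC

/-! Row UPC of project OB (MP_baa4d7) -/

set_option autoImplicit false

namespace Pool.Agent.OB

open Pool.Agent.helper58.DC Pool.Agent.DI Pool.Agent.GR

theorem UPC_symm {p : ℕ} {M : Ideal (integralClosure ℤ ℂ)} {G : Type} {a b : ℂ}
    (h : Cg p M G a b) : Cg p M G b a := by
  obtain ⟨w, hw, e⟩ := h
  refine ⟨-w, hw.neg, ?_⟩
  rw [mul_neg, ← e]
  ring

theorem UPC_trans {p : ℕ} {M : Ideal (integralClosure ℤ ℂ)} (hs : Setup p M) {G : Type} {a b c : ℂ}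
    (h : Cg p M G a b) (h' : Cg p M G b c) : Cg p M G a c := by
  obtain ⟨w, hw, e⟩ := h
  obtain ⟨w', hw', e'⟩ := h'
  refine ⟨w + w', hw.add hs hw', ?_⟩
  rw [mul_add, ← e, ← e']
  ring

theorem UPC_int {p : ℕ} {M : Ideal (integralClosure ℤ ℂ)} (hs : Setup p M) (z : ℤ)
    (h : InM M (z : ℂ)) : (p : ℤ) ∣ z := by
  rcases Int.natAbs_eq z with h1 | h1
  · rw [h1] at h
    rw [Int.natCast_dvd]
    apply (InM.natCast hs _).1
    simpa using h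
  · rw [Int.natCast_dvd]
    apply (InM.natCast hs _).1
    have h2 := h.neg
    rw [h1] at h2
    simpa using h2

theorem UPC (hLAD : LAD_stmt) (hSMD : SMD_stmt) (hMTC : MTC_stmt) (hFHH : FHH_stmt)
    (hFTT : FTT_stmt) : UPC_stmt := by
  intro p e hpe M hs G _ _ hop χ hχ hpos ζ hζ
  obtain ⟨a, ha⟩ : ∃ a : ℕ, e = p ^ a := by
    rcases hpe with ⟨h1, h2⟩ | ⟨h1, h2⟩
    · exact ⟨2, by rw [h1, h2]; norm_num⟩
    · exact ⟨1, by rw [h1, h2]; norm_num⟩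
  obtain ⟨k, hk, hkM⟩ := hMTC p a M hs G ζ hζ.sing (fun g hg y hy hy2 => by
    rw [← ha]
    exact hζ.cen g hg y hy hy2)
  have c1 : ClF M ζ := ⟨hζ.cls, hζ.int⟩
  have cpw : ∀ (j : ℕ) (f : G → ℂ), ClF M f → ClF M (pw j f) := by
    intro j f hf
    refine ⟨fun x y => ?_, fun x => hf.int _⟩
    unfold pw
    rw [conj_pow]
    exact hf.cls _ _
  have c2 : ClF M (pw k ζ) := cpw k ζ c1
  obtain ⟨⟨n, hn, l1⟩, -⟩ := hLAD p e hpe M hs G ζ c1
  obtain ⟨-, l2⟩ := hLAD p e hpe M hs G (pw k ζ) c2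
  have f1 := hFHH p e M hs G hop χ hχ hpos ζ hζ n hn
  have f2 := hFTT p e M hs G hop χ hχ ζ hζ k hk
  have hd : ∀ x, InM M (pw (p * e) ζ x - pw e (pw k ζ) x) := by
    intro x
    rw [ha]
    exact hkM x
  have s1 := hSMD p M hs G 1 (pw (p * e) ζ) (pw (p * e) ζ) (pw e (pw k ζ)) (pw e (pw k ζ))
    (cpw _ _ c1) (cpw _ _ c1) (cpw _ _ c2) (cpw _ _ c2) hd hd
  have t1 := UPC_trans hs (UPC_symm f2) (UPC_symm l2)
  have t2 := UPC_trans hs t1 (UPC_symm s1)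
  have t3 := UPC_trans hs t2 l1
  have t4 := UPC_trans hs t3 f1
  obtain ⟨w, hw, ew⟩ := t4
  rw [sub_zero] at ew
  have hcard : Nat.card G ≠ 0 := Nat.card_pos.ne'
  have : Fact p.Prime := ⟨hs.pr⟩
  obtain ⟨m, hm⟩ : pp p G ∣ Nat.card G := pow_padicValNat_dvd
  have hpm : ¬ p ∣ m := by
    rintro ⟨m', hm'⟩
    apply pow_succ_padicValNat_not_dvd (p := p) hcard
    refine ⟨m', ?_⟩
    rw [hm']  at hm
    unfold pp at hm
    rw [pow_succ, mul_assoc]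
    exact hm
  have hpp : (pp p G : ℂ) ≠ 0 := by
    unfold pp
    exact_mod_cast pow_ne_zero _ hs.pr.ne_zero
  have e2 : (((m : ℤ) * aB p M χ : ℤ) : ℂ) = w := by
    apply mul_left_cancel₀ hpp
    rw [← ew, hm]
    push_cast
    ring
  have h3 : (p : ℤ) ∣ (m : ℤ) * aB p M χ := UPC_int hs _ (by rw [e2]; exact hw)
  have h4 : IsCoprime (p : ℤ) (m : ℤ) :=
    Nat.isCoprime_iff_coprime.2 ((Nat.Prime.coprime_iff_not_dvd hs.pr).2 hpm)
  exact h4.dvd_of_dvd_mul_left h3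

end Pool.Agent.OB
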