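import Pool.Agent.helper22.OB.SpecG
import Pool.Agent.helper25.OB.ZT5

/-!
# Project ob (MP_baa4d7_al), row SGL: Galois conjugation of the sphere sum
-/

set_option autoImplicit false

namespace Pool.Agent.OB

open Pool.Agent.helper58.DC Pool.Agent.DI Pool.Agent.GR

open Classical in
private theorem SGL_mem {α R : Type} [Fintype α] [AddCommMonoid R] (S : Set α) (f : α → R) :
    ∑ᶠ x ∈ S, f x = ∑ x, if x ∈ S then f x else 0 := by
  rw [finsum_eq_sum_of_fintype]
  exact Finset.sum_congr rfl fun x _ => finsum_eq_if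

open Classical in
/-- the sphere sum by radical chains -/
theorem SGL_ex (hKRW : KRW_stmt) (G : Type) [Group G] [Finite G] [Fintype (Finset (Subgroup G))]
    (p : ℕ) [Fact p.Prime] (hp : IsOp p (⊤ : Subgroup G) ⊥) (g₁ g₂ : G → ℂ) (n : ℕ) :
    Sp p g₁ g₂ n = ∑ C : Finset (Subgroup G), if IsRadical p C then (-1) ^ (C.card + 1) *
      (∑ᶠ x ∈ {x : (Fin n → G) × G | Subgroup.closure (Set.range x.1 ∪ {x.2}) ≤ nrm C},
        g₁ x.2 * g₂ (qq x.1 * x.2)⁻¹ * (∏ j, tp p (x.1 j))) else 0 := by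
  have : Fintype G := Fintype.ofFinite G
  unfold Sp
  set F : (Fin n → G) × G → ℂ := fun x =>
    g₁ x.2 * g₂ (qq x.1 * x.2)⁻¹ * (∏ j, tp p (x.1 j)) with hF
  set K : (Fin n → G) × G → Subgroup G := fun x =>
    Subgroup.closure (Set.range x.1 ∪ {x.2}) with hK
  have hW : ∀ x, (W p (K x) : ℂ) = ∑ C : Finset (Subgroup G),
      if IsRadical p C then (-1) ^ (C.card + 1) * (if K x ≤ nrm C then (1 : ℂ) else 0) else 0 := by
    intro x
    rw [hKRW G p hp (K x), SGL_mem, Int.cast_sum]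
    refine Finset.sum_congr rfl fun C _ => ?_
    by_cases hC : IsRadical p C
    · by_cases hN : K x ≤ nrm C
      · rw [if_pos (show C ∈ {C : Finset (Subgroup G) | IsRadical p C ∧ K x ≤ nrm C} from ⟨hC, hN⟩),
          if_pos hC, if_pos hN, mul_one]
        push_cast
        rfl
      · rw [if_neg (show ¬ C ∈ {C : Finset (Subgroup G) | IsRadical p C ∧ K x ≤ nrm C} from
          fun h => hN h.2), if_pos hC, if_neg hN, mul_zero, Int.cast_zero]
    · rw [if_neg (show ¬ C ∈ {C : Finset (Subgroup G) | IsRadical p C ∧ K x ≤ nrm C} from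
          fun h => hC h.1), if_neg hC, Int.cast_zero]
  have hU : ∀ C : Finset (Subgroup G), ∑ x, F x * (if K x ≤ nrm C then (1 : ℂ) else 0) =
      ∑ᶠ x ∈ {x : (Fin n → G) × G | K x ≤ nrm C}, F x := by
    intro C
    rw [SGL_mem]
    refine Finset.sum_congr rfl fun x _ => ?_
    by_cases hN : K x ≤ nrm C
    · rw [if_pos hN, mul_one]
      exact (if_pos hN).symm
    · rw [if_neg hN, mul_zero]
      exact (if_neg hN).symm
  have h3 : ∀ x, F x * (W p (K x) : ℂ) = ∑ C : Finset (Subgroup G),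
      if IsRadical p C then (-1) ^ (C.card + 1) * (F x * (if K x ≤ nrm C then (1 : ℂ) else 0)) else 0 := by
    intro x
    rw [hW x, Finset.mul_sum]
    refine Finset.sum_congr rfl fun C _ => ?_
    by_cases hC : IsRadical p C
    · rw [if_pos hC, if_pos hC]
      ring
    · rw [if_neg hC, if_neg hC, mul_zero]
  have hL : ∑ᶠ x : (Fin n → G) × G, F x * (W p (K x) : ℂ) =
      ∑ C : Finset (Subgroup G), if IsRadical p C then (-1) ^ (C.card + 1) *
        (∑ᶠ x ∈ {x : (Fin n → G) × G | K x ≤ nrm C}, F x) else 0 := by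
    rw [finsum_eq_sum_of_fintype, Finset.sum_congr rfl fun x _ => h3 x, Finset.sum_comm]
    refine Finset.sum_congr rfl fun C _ => ?_
    by_cases hC : IsRadical p C
    · rw [if_pos hC, ← hU C, Finset.mul_sum]
      exact Finset.sum_congr rfl fun x _ => if_pos hC
    · rw [if_neg hC]
      exact Finset.sum_eq_zero fun x _ => if_neg hC
  exact hL

theorem SGL_cc {G : Type} [Group G] [Finite G] (m s : ℕ) (e1 : ∀ g : G, (g ^ m) ^ s = g)
    (e2 : ∀ g : G, (g ^ s) ^ m = g) (ψ z : G → ℂ) :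
    cc ψ (fun g => z (g ^ m)) = cc (fun g => ψ (g ^ s)) z := by
  unfold cc
  have h2 : (∑ᶠ x, z (x ^ m) * ψ x) = ∑ᶠ x, z x * ψ (x ^ s) := by
    apply finsum_eq_of_bijective (fun x : G => x ^ m)
    · constructor
      · intro a b h
        have h3 : a ^ m = b ^ m := h
        rw [← e1 a, h3, e1]
      · intro y
        exact ⟨y ^ s, e2 y⟩
    · intro x
      show z (x ^ m) * ψ x = z (x ^ m) * ψ ((x ^ m) ^ s)
      rw [e1]
  rw [h2]
  show (∑ᶠ x, z x * ψ (x ^ s)) / ψ 1 = (∑ᶠ x, z x * ψ (x ^ s)) / ψ (1 ^ s)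
  rw [one_pow]

/-- **SGL** -/
theorem SGL (hSUP : SUP_stmt) (hKRW : KRW_stmt) (hZT4 : ZT4_stmt) : SGL_stmt := by
  classical
  intro G _ _ p _ hp f₁ f₂ h₁ h₂ n m hm hf
  have : Fintype (Subgroup G) := Fintype.ofFinite _
  obtain ⟨s, hs, hks⟩ := ZT5_inv G m hm
  have e1 : ∀ g : G, (g ^ m) ^ s = g := fun g => by rw [← pow_mul]; exact hks g
  have e2 : ∀ g : G, (g ^ s) ^ m = g := fun g => by rw [← pow_mul, mul_comm]; exact hks g
  have hpw : ∀ x y, pw m f₁ (y * x * y⁻¹) = pw m f₁ x := by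
    intro x y
    unfold pw
    rw [conj_pow, h₁]
  have htp : ∀ x : G, tp p (x ^ m) = tp p x := by
    intro x
    unfold tp
    have h : (x ^ m) ^ p = 1 ↔ x ^ p = 1 := by
      rw [← pow_mul, mul_comm, pow_mul]
      constructor
      · intro h
        rw [← e1 (x ^ p), h, one_pow]
      · intro h
        rw [h, one_pow]
    by_cases hx : x ^ p = 1
    · rw [if_pos hx, if_pos (h.2 hx)]
    · rw [if_neg hx, if_neg (fun h' => hx (h.1 h'))]
  have key : ∀ L : Subgroup G,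
      ∑ᶠ x ∈ {x : (Fin n → G) × G | Subgroup.closure (Set.range x.1 ∪ {x.2}) ≤ L},
        pw m f₁ x.2 * f₂ (qq x.1 * x.2)⁻¹ * (∏ j, tp p (x.1 j)) =
      ∑ᶠ x ∈ {x : (Fin n → G) × G | Subgroup.closure (Set.range x.1 ∪ {x.2}) ≤ L},
        f₁ x.2 * f₂ (qq x.1 * x.2)⁻¹ * (∏ j, tp p (x.1 j)) := by
    intro L
    have hL0 : (Nat.card L : ℂ) ≠ 0 := by
      exact_mod_cast (Nat.card_pos (α := L)).ne'
    apply mul_left_cancel₀ hL0
    rw [hSUP G p L (pw m f₁) f₂ hpw h₂ n, hSUP G p L f₁ f₂ h₁ h₂ n]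
    apply finsum_mem_eq_of_bijOn (fun ψ : G → ℂ => fun g => ψ (g ^ s))
    · refine ⟨?_, ?_, ?_⟩
      · intro ψ hψ
        exact hZT4 G s hs L ψ hψ
      · intro ψ _ ψ' _ h
        funext g
        have h2 := congrFun h (g ^ m)
        have h3 : ψ ((g ^ m) ^ s) = ψ' ((g ^ m) ^ s) := h2
        rwa [e1] at h3
      · intro ψ hψ
        refine ⟨fun g => ψ (g ^ m), hZT4 G m hm L ψ hψ, ?_⟩
        funext g
        show ψ ((g ^ s) ^ m) = ψ g
        rw [e2]
    · intro ψ _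
      have c1 : cc ψ (pw m f₁) = cc (fun g => ψ (g ^ s)) f₁ := SGL_cc m s e1 e2 ψ f₁
      have c2 : cc ψ f₂ = cc (fun g => ψ (g ^ s)) f₂ := by
        rw [← SGL_cc m s e1 e2 ψ f₂]
        exact congrArg _ (funext fun g => (hf g).symm)
      have c3 : cc ψ (tp p) = cc (fun g => ψ (g ^ s)) (tp p) := by
        rw [← SGL_cc m s e1 e2 ψ (tp p)]
        exact congrArg _ (funext fun g => (htp g).symm)
      show ψ 1 ^ 2 * (cc ψ (pw m f₁) * cc ψ f₂ * (cc ψ (tp p)) ^ n) = ψ (1 ^ s) ^ 2 *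
        (cc (fun g => ψ (g ^ s)) f₁ * cc (fun g => ψ (g ^ s)) f₂ *
          (cc (fun g => ψ (g ^ s)) (tp p)) ^ n)
      rw [c1, c2, c3, one_pow]
  rw [SGL_ex hKRW G p hp (pw m f₁) f₂ n, SGL_ex hKRW G p hp f₁ f₂ n]
  refine Finset.sum_congr rfl fun C _ => ?_
  rw [key (nrm C)]

end Pool.Agent.OB
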